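import Pool.Agent.Helper93.WC.St

set_option autoImplicit false

/-! Project WC, module LEV. -/

namespace Pool.Agent.Helper19.WC

open Polynomial Helper62.Weber Pool.Agent.Helper93.WC

theorem step (l e k c : ℕ) (he : 2 ≤ e) (h : l ^ k = 1 + 2 ^ e * c) (hc : Odd c) :
    ∃ k' c' : ℕ, l ^ k' = 1 + 2 ^ (e + 1) * c' ∧ Odd c' := by
  obtain ⟨f, rfl⟩ : ∃ f, e = f + 2 := ⟨e - 2, by omega⟩
  refine ⟨k * 2, c + 2 ^ (f + 1) * c ^ 2, ?_, ?_⟩
  · rw [pow_mul, h]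
    ring
  · apply hc.add_even
    rw [pow_succ]
    exact ⟨2 ^ f * c ^ 2, by ring⟩

theorem climb (l r : ℕ) (hr : 2 ≤ r) (h : ∃ k c : ℕ, l ^ k = 1 + 2 ^ r * c ∧ Odd c) :
    ∀ e, r ≤ e → ∃ k c : ℕ, l ^ k = 1 + 2 ^ e * c ∧ Odd c := by
  intro e he
  induction e, he using Nat.le_induction with
  | base => exact h
  | succ e he ih =>
    obtain ⟨k, c, h1, h2⟩ := ih
    exact step l e k c (hr.trans he) h1 h2

/-- the odd part -/
theorem oddpart (m : ℕ) (hm : m ≠ 0) : ∃ c : ℕ, m = 2 ^ padicValNat 2 m * c ∧ Odd c := by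
  obtain ⟨c, hc⟩ := pow_padicValNat_dvd (p := 2) (n := m)
  refine ⟨c, hc, ?_⟩
  by_contra hodd
  rw [Nat.not_odd_iff_even] at hodd
  obtain ⟨d, hd⟩ := hodd
  have h1 : 2 ^ (padicValNat 2 m + 1) ∣ m := by
    refine ⟨d, ?_⟩
    rw [pow_succ]
    calc m = 2 ^ padicValNat 2 m * c := hc
      _ = 2 ^ padicValNat 2 m * 2 * d := by rw [hd]; ring
  haveI : Fact (Nat.Prime 2) := ⟨Nat.prime_two⟩
  exact pow_succ_padicValNat_not_dvd hm h1

theorem cLEV : LEV := by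
  intro l hl hodd
  haveI : Fact (Nat.Prime 2) := ⟨Nat.prime_two⟩
  have h3 : 3 ≤ l := by
    have := hl.two_le
    obtain ⟨m, hm⟩ := hodd
    omega
  have hl2 : l % 2 = 1 := Nat.odd_iff.1 hodd
  by_cases h4 : l % 4 = 1
  · have hrr : rr l = padicValNat 2 (l - 1) := by rw [rr, if_pos h4]
    have hne : l - 1 ≠ 0 := by omega
    have hr : 2 ≤ rr l := by
      rw [hrr]
      rw [← padicValNat_dvd_iff_le hne]
      exact Nat.dvd_of_mod_eq_zero (by norm_num; omega)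
    have hd : 2 ^ rr l ≤ l - 1 := by
      rw [hrr]
      exact Nat.le_of_dvd (by omega) pow_padicValNat_dvd
    refine ⟨hr, ?_, fun _ => hd, by omega⟩
    apply climb l _ hr
    obtain ⟨c, hc, hco⟩ := oddpart (l - 1) hne
    refine ⟨1, c, ?_, hco⟩
    rw [hrr, ← hc, pow_one]
    omega
  · have h43 : l % 4 = 3 := by omega
    have hrr : rr l = padicValNat 2 (l ^ 2 - 1) := by rw [rr, if_neg h4]
    obtain ⟨m, hm⟩ : ∃ m, l = 4 * m + 3 := ⟨l / 4, by omega⟩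
    have hfac : l ^ 2 - 1 = 2 * (l + 1) * (2 * m + 1) := by
      rw [hm]
      have : (4 * m + 3) ^ 2 = 2 * (4 * m + 3 + 1) * (2 * m + 1) + 1 := by ring
      omega
    have hne : l ^ 2 - 1 ≠ 0 := by
      rw [hfac]; positivity
    have hr : 2 ≤ rr l := by
      rw [hrr, ← padicValNat_dvd_iff_le hne, hfac]
      refine ⟨2 * (m + 1) * (2 * m + 1), ?_⟩
      rw [hm]; ring
    have hd : 2 ^ rr l ∣ 2 * (l + 1) := by
      have h1 : 2 ^ rr l ∣ 2 * (l + 1) * (2 * m + 1) := by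
        rw [← hfac, hrr]; exact pow_padicValNat_dvd
      have hcop : Nat.Coprime (2 ^ rr l) (2 * m + 1) := by
        apply Nat.Coprime.pow_left
        rw [Nat.coprime_two_left]
        exact ⟨m, rfl⟩
      exact hcop.dvd_of_dvd_mul_right h1
    refine ⟨hr, ?_, fun h => absurd h h4, Nat.le_of_dvd (by omega) hd⟩
    apply climb l _ hr
    obtain ⟨c, hc, hco⟩ := oddpart (l ^ 2 - 1) hne
    refine ⟨2, c, ?_, hco⟩
    rw [hrr, ← hc]
    omega

end Pool.Agent.Helper19.WC
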